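import Mathlib

set_option autoImplicit false
set_option maxHeartbeats 400000

namespace Pool.Agent.Results.MP_6b1724_al.Kernel

section defs
variable {G : Type} [Group G] {k : ℕ}

/-- The element represented by a word over `X ∪ X⁻¹`. -/
def ev (X : Fin k → G) (w : List (Fin k × Bool)) : G :=
  (w.map fun a => if a.2 then X a.1 else (X a.1)⁻¹).prod

/-- `d(g, g') ≤ n` in the Cayley graph. -/
def DistLe (X : Fin k → G) (g g' : G) (n : ℕ) : Prop :=
  ∃ u : List (Fin k × Bool), u.length ≤ n ∧ g * ev X u = g'

/-- The padded pair read by a two-variable automaton (`none` is the padding symbol). -/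
def pad {A : Type} (v w : List A) : List (Option A × Option A) := List.zipWithAll Prod.mk v w

def CosetAutomatic (X : Fin k → G) (H : Subgroup G) : Prop :=
  ∃ L : Language (Fin k × Bool), L.IsRegular ∧ (∀ g, ∃ w ∈ L, ev X w * g⁻¹ ∈ H) ∧
    ∀ a : Option (Fin k × Bool), ∃ M : Language (Option (Fin k × Bool) × Option (Fin k × Bool)),
      M.IsRegular ∧ ∀ v w, pad v w ∈ M ↔ v ∈ L ∧ w ∈ L ∧ ev X (v ++ a.toList) * (ev X w)⁻¹ ∈ H

def StronglyCosetAutomatic (X : Fin k → G) (H : Subgroup G) : Prop :=
  ∃ (L : Language (Fin k × Bool)) (K : ℕ), L.IsRegular ∧ (∀ g, ∃ w ∈ L, ev X w * g⁻¹ ∈ H) ∧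
    ∀ v ∈ L, ∀ w ∈ L, ∀ h ∈ H, DistLe X (ev X v) (h * ev X w) 1 →
      ∀ i, DistLe X (ev X (v.take i)) (h * ev X (w.take i)) K

end defs

section reg
variable {α : Type} [DecidableEq α]

def D (p q : α) (b : Bool) : DFA α (Option Bool) where
  step s a := if s = some false then (if a = p then some false else if a = q then some true
    else none) else none
  start := some false
  accept := {some b}

theorem D_none (p q : α) (b : Bool) (l : List α) : (D p q b).evalFrom none l = none := by
  induction l with
  | nil => rfl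
  | cons a l ih => simpa [DFA.evalFrom_cons, D] using ih

theorem D_true (p q : α) (b : Bool) (l : List α) :
    (D p q b).evalFrom (some true) l = if l = [] then some true else none := by
  cases l with
  | nil => rfl
  | cons a l => simpa [DFA.evalFrom_cons, D] using D_none p q b l

theorem D_spec (p q : α) (h : q ≠ p) (b : Bool) (l : List α) :
    (D p q b).evalFrom (some false) l = some b ↔
      ∃ n, l = List.replicate n p ++ if b then [q] else [] := by
  induction l with
  | nil => cases b <;> simp
  | cons a l ih =>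
    rw [DFA.evalFrom_cons]
    by_cases h1 : a = p
    · subst h1
      have : (D a q b).step (some false) a = some false := by simp [D]
      rw [this, ih]
      constructor
      · rintro ⟨n, rfl⟩
        exact ⟨n + 1, rfl⟩
      · rintro ⟨_ | n, hn⟩
        · cases b <;> simp_all
        · exact ⟨n, by simpa [List.replicate_succ] using hn⟩
    · by_cases h2 : a = q
      · subst h2
        have : (D p a b).step (some false) a = some true := by simp [D, h1]
        rw [this, D_true]
        constructor
        · intro h3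
          split_ifs at h3 with h4
          obtain rfl : true = b := by simpa using h3
          exact ⟨0, by simp [h4]⟩
        · rintro ⟨_ | n, hn⟩
          · cases b <;> simp_all
          · simp [List.replicate_succ, h1] at hn
      · have : (D p q b).step (some false) a = none := by simp [D, h1, h2]
        rw [this, D_none]
        refine ⟨fun h => by simp at h, ?_⟩
        rintro ⟨_ | n, hn⟩
        · cases b <;> simp_all
        · simp [List.replicate_succ, h1] at hn

theorem reg2 (p q p' q' : α) (h : q ≠ p) (h' : q' ≠ p') (b : Bool) (L : Language α)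
    (hL : ∀ l, l ∈ L ↔ (∃ n, l = List.replicate n p ++ if b then [q] else []) ∨
      ∃ n, l = List.replicate n p' ++ if b then [q'] else []) : L.IsRegular := by
  have : L = (D p q b).accepts + (D p' q' b).accepts := by
    ext l
    rw [hL, Language.mem_add, ← D_spec p q h, ← D_spec p' q' h']
    rfl
  rw [this]
  exact Language.IsRegular.add ⟨_, inferInstance, _, rfl⟩ ⟨_, inferInstance, _, rfl⟩

omit [DecidableEq α]

theorem pad_inj (v w : List α) : (pad v w).filterMap Prod.fst = v ∧ (pad v w).filterMap Prod.snd = w := by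
  induction v generalizing w with
  | nil => simp [pad, List.filterMap_map, Function.comp_def]
  | cons a v ih =>
    cases w with
    | nil => simp [pad, List.filterMap_map, Function.comp_def]
    | cons b w => simpa [pad] using ih w

theorem pad0 (a : α) (n : ℕ) :
    pad (List.replicate n a) (List.replicate n a) = List.replicate n (some a, some a) := by
  induction n with
  | zero => rfl
  | succ n ih => simpa [pad, List.replicate_succ] using ih

theorem pad1 (a : α) (n : ℕ) : pad (List.replicate n a) (List.replicate (n + 1) a) =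
    List.replicate n (some a, some a) ++ [(none, some a)] := by
  induction n with
  | zero => rfl
  | succ n ih => simpa [pad, List.replicate_succ] using ih

theorem pad2 (a : α) (n : ℕ) : pad (List.replicate (n + 1) a) (List.replicate n a) =
    List.replicate n (some a, some a) ++ [(some a, none)] := by
  induction n with
  | zero => rfl
  | succ n ih => simpa [pad, List.replicate_succ] using ih

end reg

abbrev F := FreeGroup (Fin 2)
abbrev A := Fin 2 × Bool

def φ : F →* Multiplicative ℤ := FreeGroup.lift fun i => .ofAdd (if i = 1 then 1 else 0)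

def wd : ℤ → List A
  | .ofNat n => List.replicate n (1, true)
  | .negSucc n => List.replicate (n + 1) (1, false)

theorem φ_wd (n : ℤ) : φ (ev .of (wd n)) = .ofAdd n := by
  cases n with
  | ofNat n => simp [wd, ev, φ, ← ofAdd_nsmul]
  | negSucc n => simp [wd, ev, φ, ← ofAdd_nsmul, Int.negSucc_eq]

theorem wd_nat (n : ℕ) : wd n = List.replicate n (1, true) := rfl
theorem wd_neg (n : ℕ) : wd (-n) = List.replicate n (1, false) := by cases n <;> rfl

theorem regM (e : ℤ) (he : e = 0 ∨ e = 1 ∨ e = -1) :
    Language.IsRegular {l | ∃ n, l = pad (wd n) (wd (n + e))} := by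
  rcases he with rfl | rfl | rfl
  · refine reg2 (some (1, true), some (1, true)) (none, none) (some (1, false), some (1, false))
      (none, none) (by decide) (by decide) false _ fun l => ⟨?_, ?_⟩
    · rintro ⟨n, rfl⟩
      obtain ⟨n, rfl | rfl⟩ := Int.eq_nat_or_neg n
      · exact Or.inl ⟨n, by simp [wd_nat, pad0]⟩
      · exact Or.inr ⟨n, by simp [wd_neg, pad0]⟩
    · rintro (⟨n, rfl⟩ | ⟨n, rfl⟩)
      · exact ⟨n, by simp [wd_nat, pad0]⟩
      · exact ⟨-n, by simp [wd_neg, pad0]⟩
  · refine reg2 (some (1, true), some (1, true)) (none, some (1, true))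
      (some (1, false), some (1, false)) (some (1, false), none) (by decide) (by decide) true _
      fun l => ⟨?_, ?_⟩
    · rintro ⟨n | n, rfl⟩
      · exact Or.inl ⟨n, pad1 _ n⟩
      · refine Or.inr ⟨n, ?_⟩
        rw [show Int.negSucc n + 1 = -n by omega, wd_neg]
        exact pad2 _ n
    · rintro (⟨n, rfl⟩ | ⟨n, rfl⟩)
      · exact ⟨n, (pad1 _ n).symm⟩
      · refine ⟨.negSucc n, ?_⟩
        rw [show Int.negSucc n + 1 = -n by omega, wd_neg]
        exact (pad2 _ n).symm
  · refine reg2 (some (1, true), some (1, true)) (some (1, true), none)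
      (some (1, false), some (1, false)) (none, some (1, false)) (by decide) (by decide) true _
      fun l => ⟨?_, ?_⟩
    · rintro ⟨n, rfl⟩
      obtain ⟨m, rfl⟩ : ∃ m, n = m + 1 := ⟨n - 1, by ring⟩
      rw [add_neg_cancel_right]
      rcases m with m | m
      · exact Or.inl ⟨m, pad2 _ m⟩
      · refine Or.inr ⟨m, ?_⟩
        rw [show Int.negSucc m + 1 = -m by omega, wd_neg]
        exact pad1 _ m
    · rintro (⟨n, rfl⟩ | ⟨n, rfl⟩)
      · refine ⟨n + 1, ?_⟩
        rw [add_neg_cancel_right]
        exact (pad2 _ n).symm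
      · refine ⟨-n, ?_⟩
        rw [show -(n : ℤ) + -1 = .negSucc n by omega, wd_neg]
        exact (pad1 _ n).symm

theorem auto : CosetAutomatic (FreeGroup.of : Fin 2 → F) φ.ker := by
  refine ⟨Set.range wd, ?_, fun g => ⟨wd (φ g).toAdd, ⟨_, rfl⟩, by simp [MonoidHom.mem_ker, φ_wd]⟩,
    fun a => ⟨_, regM (φ (ev .of a.toList)).toAdd ?_, fun v w => ⟨?_, ?_⟩⟩⟩
  · refine reg2 (1, true) (0, true) (1, false) (0, true) (by decide) (by decide) false _
      fun l => ⟨?_, ?_⟩
    · rintro ⟨n, rfl⟩
      obtain ⟨n, rfl | rfl⟩ := Int.eq_nat_or_neg n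
      · exact Or.inl ⟨n, by simp [wd_nat]⟩
      · exact Or.inr ⟨n, by simp [wd_neg]⟩
    · rintro (⟨n, rfl⟩ | ⟨n, rfl⟩)
      · exact ⟨n, by simp [wd_nat]⟩
      · exact ⟨-n, by simp [wd_neg]⟩
  · rcases a with _ | ⟨i, b⟩
    · simp [ev]
    · fin_cases i <;> cases b <;> simp [ev, φ]
  · rintro ⟨n, hn⟩
    obtain rfl : v = wd n := by rw [← (pad_inj v w).1, hn, (pad_inj _ _).1]
    have hw : w = wd (n + (φ (ev .of a.toList)).toAdd) := by
      rw [← (pad_inj (wd n) w).2, hn, (pad_inj _ _).2]
    refine ⟨⟨_, rfl⟩, ⟨_, hw.symm⟩, ?_⟩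
    have h1 : ev (.of : Fin 2 → F) (wd n ++ a.toList) = ev .of (wd n) * ev .of a.toList := by
      simp [ev]
    rw [MonoidHom.mem_ker, hw, h1]
    simp [φ_wd]
  · rintro ⟨⟨n, rfl⟩, ⟨m, rfl⟩, h⟩
    have h1 : ev (.of : Fin 2 → F) (wd n ++ a.toList) = ev .of (wd n) * ev .of a.toList := by
      simp [ev]
    rw [MonoidHom.mem_ker, h1, map_mul, map_inv, map_mul, φ_wd, φ_wd, mul_inv_eq_one] at h
    exact ⟨n, by rw [← toAdd_ofAdd m, ← h]; rfl⟩

def ψ : F →* Equiv.Perm ℚ :=
  FreeGroup.lift fun i => if i = 1 then Equiv.mulLeft₀ 2 two_ne_zero else Equiv.addRight 1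

theorem ψ_add (g : F) : ∀ u c : ℚ, ψ g (u + c) = ψ g u + 2 ^ (φ g).toAdd * c := by
  induction g using FreeGroup.induction_on with
  | C1 => simp
  | of i => intro u c; fin_cases i <;> simp [ψ, φ] <;> ring
  | inv_of i ih =>
    intro u c
    apply (ψ (.of i)).injective
    rw [ih]
    simp [zpow_neg, ← mul_assoc, zpow_ne_zero]
  | mul x y hx hy =>
    intro u c
    simp [hx, hy, zpow_add₀, mul_assoc]

theorem result : ∃ (G : Type) (_ : Group G) (k : ℕ) (X : Fin k → G) (H : Subgroup G),
    Subgroup.closure (Set.range X) = ⊤ ∧ CosetAutomatic X H ∧ ¬ StronglyCosetAutomatic X H := by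
  refine ⟨F, inferInstance, 2, .of, φ.ker, FreeGroup.closure_range_of _, auto, ?_⟩
  rintro ⟨L, K, -, h1, h2⟩
  refine Set.infinite_range_of_injective (zpow_right_injective₀ (a := (2 : ℚ)) (by norm_num)
    (by norm_num)) (((List.finite_length_le A K).image fun u => ψ (ev .of u) 0).subset ?_)
  rintro _ ⟨n, rfl⟩
  obtain ⟨v, hv, h3⟩ := h1 (ev .of (wd n))
  rw [MonoidHom.mem_ker, map_mul, map_inv, φ_wd, mul_inv_eq_one] at h3
  obtain ⟨u, hu, h4⟩ := h2 v hv v hv (ev .of v * .of 0 * (ev .of v)⁻¹)
    (by simp [MonoidHom.mem_ker, φ]) ⟨[(0, true)], le_rfl, by simp [ev]⟩ 0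
  refine ⟨u, hu, ?_⟩
  have h5 : ev (.of : Fin 2 → F) u = ev .of v * .of 0 * (ev .of v)⁻¹ := by simpa [ev] using h4
  have h6 : ∀ x, ψ (.of 0) x = x + 1 := by simp [ψ]
  simp [h5, h6, ψ_add, h3]

end Pool.Agent.Results.MP_6b1724_al.Kernel
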